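import Pool.Agent.H467R3.Odd.Final

/-!
# The finitary form of the question has a negative answer

For every `k` there is a finite set `R` of differences which every set of integers of upper density
more than `1/k` contains, while the primes above some bound have a colouring with two colours, and
all primes a colouring with three colours, without two primes of the same colour whose difference is
in `R`. For a suitable `N` the integers prime to `N` have such a colouring with two colours.

`R` consists of differences `m` whose residues modulo the primes `p` of a finite set of odd primes
are in `{0, 1, -1}`, an odd number of them nonzero. The sum of the residues of `n` changes its parity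
under a step `m` which does not meet the class of `0` modulo any of the primes. A set without
differences in `R` has density at most the product of the `1 - 1/p`.
-/

set_option autoImplicit false

namespace Pool.Agent.Results.MP_5ab464_nt.FinitaryFailure

open Filter

/-- For every `k ≥ 1` there are `N`, `L` and a finite set `R` of positive integers such that:
every set of more than `L / k` integers in an interval of length `L` has a difference in `R`;
every set of natural numbers of upper density more than `1 / k` has a difference in `R`; there is a
colouring with two colours for which no two integers prime to `N`, and no two primes above `N`, of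
the same colour have a difference in `R`; there is a colouring of all primes with three colours
with the same property. -/
theorem result (k : ℕ) (hk : 1 ≤ k) : ∃ (N L : ℕ) (R : Finset ℕ), 0 < N ∧ 0 < L ∧
    (∀ m ∈ R, 0 < m) ∧
    (∀ (x : ℕ) (S : Finset ℕ), S ⊆ Finset.Ico x (x + L) → L < k * S.card →
      ∃ a ∈ S, ∃ b ∈ S, a < b ∧ b - a ∈ R) ∧
    (∀ A : Set ℕ, 1 / (k : ℝ) < limsup
        (fun n : ℕ => ((A ∩ Set.Iio n).ncard : ℝ) / (n : ℝ)) atTop →
      ∃ a ∈ A, ∃ b ∈ A, a < b ∧ b - a ∈ R) ∧
    (∃ c : ℕ → Fin 2, ∀ a b : ℕ, a < b → a.Coprime N → b.Coprime N → c a = c b → b - a ∉ R) ∧
    (∃ c : ℕ → Fin 2, ∀ p q : ℕ, p.Prime → q.Prime → N < p → p < q → c p = c q → q - p ∉ R) ∧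
    (∃ c : ℕ → Fin 3, ∀ p q : ℕ, p.Prime → q.Prime → p < q → c p = c q → q - p ∉ R) := by
  obtain ⟨N, L, R, h1, h2, h3, h4, h5, _, h6, h7, h8⟩ := Pool.Agent.H467R3.Odd.main k hk
  exact ⟨N, L, R, h1, h2, h3, h4, h5, h6, h7, h8⟩

end Pool.Agent.Results.MP_5ab464_nt.FinitaryFailure
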